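import Pool.Agent.Lib.MP_a300b0_lc.LK

/-! Cut-free LK in DAG form does not p-simulate resolution. -/

open Pool.Agent.Lib.MP_a300b0_lc

theorem Pool.Agent.Results.MP_a300b0_lc.CutFreeLK.result (p : Polynomial ℕ) :
    ∃ (S : Finset (Finset (ℕ × Bool))) (R : List (Finset (ℕ × Bool))), IsResRefutation R S ∧
      (∃ Γ, Represents Γ S ∧ (Γ.map Fm.atoms).sum = ∑ C ∈ S, C.card) ∧
      ∀ Γ, Represents Γ S → (∃ P, IsLKRefutation P Γ) ∧
        ∀ P, IsLKRefutation P Γ → p.eval (inputBits S R) < atomCount P :=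
  separation_lk p
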